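import Mathlib
import Pool.Agent.helper55.BiOrd

/-!
# Isomorphism of finitely generated bi-orderable groups is a universal countable Borel equivalence relation

The space of `n`-generated marked groups is the closed set of normal subgroups of the free group
`F_n` in the Cantor space `2 ^ F_n`.
-/

set_option autoImplicit false

namespace Pool.Agent.Results.MP_07d4a7_lc.FourGenerators

open MeasureTheory Set

/-- The space `𝒢_n` of `n`-generated marked groups: the normal subgroups `N` of `F_n`. -/
def Marked (n : ℕ) : Type := {N : Subgroup (FreeGroup (Fin n)) // N.Normal}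

open Classical in
/-- The code of `N` in the Cantor space `2 ^ F_n`: its characteristic function. -/
noncomputable def code {n : ℕ} (N : Marked n) : FreeGroup (Fin n) → Bool :=
  fun g => decide (g ∈ N.1)

/-- The topology of `𝒢_n`, induced from the Cantor space. -/
noncomputable instance (n : ℕ) : TopologicalSpace (Marked n) := TopologicalSpace.induced code inferInstance

/-- The Borel sets of `𝒢_n`. -/
noncomputable instance (n : ℕ) : MeasurableSpace (Marked n) := borel (Marked n)

instance (n : ℕ) : BorelSpace (Marked n) := ⟨rfl⟩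

/-- The space `𝒢` of finitely generated marked groups: the disjoint union of the `𝒢_n`, `n ≥ 1`
(with the Borel structure of the disjoint union). -/
abbrev Groups : Type := Σ n : ℕ, Marked (n + 1)

instance {n : ℕ} (N : Marked n) : N.1.Normal := N.2

/-- The group `F_n / N` coded by the point `N` of `𝒢_n`. -/
def grp (p : Groups) : Type := FreeGroup (Fin (p.1 + 1)) ⧸ p.2.1

noncomputable instance (p : Groups) : Group (grp p) := QuotientGroup.Quotient.group p.2.1

/-- Bi-orderable groups. -/
def BiOrderable (G : Type) [Group G] : Prop :=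
  ∃ o : LinearOrder G, ∀ a b g h : G, o.lt a b → o.lt (g * a * h) (g * b * h)

/-- The set `ℬ𝒪` of the codes of the bi-orderable groups. -/
def BO : Set Groups := {p | BiOrderable (grp p)}

/-- Isomorphism of the coded groups. -/
def Iso (p q : BO) : Prop := Nonempty (grp p.1 ≃* grp q.1)

/-- Countable Borel equivalence relations. -/
structure IsCBER {X : Type*} [MeasurableSpace X] (E : X → X → Prop) : Prop where
  equivalence : Equivalence E
  borel : MeasurableSet {p : X × X | E p.1 p.2}
  countable : ∀ x, {y | E x y}.Countable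

/-- `f` is a Borel reduction of `F` to `E`. -/
def IsReduction {Y X : Type*} [MeasurableSpace Y] [MeasurableSpace X] (F : Y → Y → Prop)
    (E : X → X → Prop) (f : Y → X) : Prop :=
  Measurable f ∧ ∀ y y', F y y' ↔ E (f y) (f y')

/-- The points of `𝒢_4` which code centre-by-metabelian groups (the second derived subgroup is
central) with infinite cyclic centre. -/
def Special (p : Groups) : Prop :=
  p.1 + 1 = 4 ∧ derivedSeries (grp p) 2 ≤ Subgroup.center (grp p) ∧
    Nonempty (Multiplicative ℤ ≃* Subgroup.center (grp p))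

/-! ### Borel structure of disjoint unions -/

lemma borelSpace_sigma {X : ℕ → Type} [∀ n, TopologicalSpace (X n)]
    [∀ n, MeasurableSpace (X n)] [∀ n, BorelSpace (X n)] : BorelSpace (Σ n, X n) := by
  constructor
  apply le_antisymm
  · intro s hs
    have h1 : ∀ n, MeasurableSet (Sigma.mk n ⁻¹' s) := by
      intro n
      have := MeasurableSpace.measurableSet_iInf.1 hs n
      exact this
    let _ : MeasurableSpace (Σ n, X n) := borel _
    have : BorelSpace (Σ n, X n) := ⟨rfl⟩
    have h2 : s = ⋃ n, Sigma.mk n '' (Sigma.mk n ⁻¹' s) := by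
      ext ⟨n, x⟩
      simp only [mem_iUnion, mem_image, mem_preimage]
      constructor
      · intro h
        exact ⟨n, x, h, rfl⟩
      · rintro ⟨m, y, h, e⟩
        rw [← e]
        exact h
    change MeasurableSet s
    rw [h2]
    refine MeasurableSet.iUnion fun n => ?_
    exact (Topology.IsOpenEmbedding.measurableEmbedding
      Topology.IsOpenEmbedding.sigmaMk).measurableSet_image' (h1 n)
  · apply MeasurableSpace.generateFrom_le
    intro s hs
    refine MeasurableSpace.measurableSet_iInf.2 fun n => ?_
    have h1 : IsOpen (Sigma.mk n ⁻¹' s) := hs.preimage continuous_sigmaMk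
    exact h1.measurableSet

/-! ### The spaces of marked groups -/

lemma code_eq_true {n : ℕ} (N : Marked n) (g : FreeGroup (Fin n)) :
    code N g = true ↔ g ∈ N.1 := by
  simp [code]

lemma code_eq_false {n : ℕ} (N : Marked n) (g : FreeGroup (Fin n)) :
    code N g = false ↔ g ∉ N.1 := by
  simp [code]

lemma code_injective (n : ℕ) : Function.Injective (code (n := n)) := by
  intro N M h
  apply Subtype.ext
  ext g
  rw [← code_eq_true, ← code_eq_true, h]

lemma continuous_code (n : ℕ) : Continuous (code (n := n)) := continuous_induced_dom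

lemma continuous_code_apply {n : ℕ} (g : FreeGroup (Fin n)) :
    Continuous fun N : Marked n => code N g :=
  (continuous_apply g).comp (continuous_code n)

section closed

variable {Z F : Type} [TopologicalSpace Z] {e : Z → F → Bool} (he : ∀ g, Continuous fun z => e z g)
include he

lemma isClosed_coord (g : F) (b : Bool) : IsClosed {z | e z g = b} :=
  isClosed_singleton.preimage (he g)

lemma isOpen_coord (g : F) (b : Bool) : IsOpen {z | e z g = b} :=
  (isOpen_discrete {b}).preimage (he g)

end closed

lemma isClosed_range_code (n : ℕ) : IsClosed (range (code (n := n))) := by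
  have h : range (code (n := n)) = {x | x 1 = true ∧
      (∀ g h, x g = true → x h = true → x (g * h) = true) ∧
      (∀ g, x g = true → x g⁻¹ = true) ∧
      (∀ g h, x g = true → x (h * g * h⁻¹) = true)} := by
    ext x
    constructor
    · rintro ⟨N, rfl⟩
      have := N.2
      simp only [mem_ofPred_eq, code_eq_true]
      exact ⟨N.1.one_mem, fun g h hg hh => N.1.mul_mem hg hh, fun g hg => N.1.inv_mem hg,
        fun g h hg => N.2.conj_mem g hg h⟩
    · rintro ⟨h1, h2, h3, h4⟩
      refine ⟨⟨{ carrier := {g | x g = true}, mul_mem' := fun {a b} ha hb => h2 a b ha hb,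
                 one_mem' := h1, inv_mem' := fun {a} ha => h3 a ha }, ⟨fun g hg h => h4 g h hg⟩⟩, ?_⟩
      funext g
      rw [Bool.eq_iff_iff, code_eq_true]
      rfl
  rw [h]
  have he : ∀ g, Continuous fun x : FreeGroup (Fin n) → Bool => x g := continuous_apply
  have hB : IsClosed {x : FreeGroup (Fin n) → Bool |
      ∀ g h, x g = true → x h = true → x (g * h) = true} := by
    simp only [ofPred_forall]
    refine isClosed_iInter fun g => isClosed_iInter fun h => ?_
    exact isClosed_imp (isOpen_coord he _ _) (isClosed_imp (isOpen_coord he _ _)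
      (isClosed_coord he _ _))
  have hC : IsClosed {x : FreeGroup (Fin n) → Bool | ∀ g, x g = true → x g⁻¹ = true} := by
    simp only [ofPred_forall]
    refine isClosed_iInter fun g => ?_
    exact isClosed_imp (isOpen_coord he _ _) (isClosed_coord he _ _)
  have hD : IsClosed {x : FreeGroup (Fin n) → Bool |
      ∀ g h, x g = true → x (h * g * h⁻¹) = true} := by
    simp only [ofPred_forall]
    refine isClosed_iInter fun g => isClosed_iInter fun h => ?_
    exact isClosed_imp (isOpen_coord he _ _) (isClosed_coord he _ _)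
  exact (isClosed_coord he 1 true).inter (hB.inter (hC.inter hD))

lemma isClosedEmbedding_code (n : ℕ) : Topology.IsClosedEmbedding (code (n := n)) :=
  ⟨⟨⟨rfl⟩, code_injective n⟩, isClosed_range_code n⟩

instance (n : ℕ) : PolishSpace (Marked n) := by
  have : PolishSpace (FreeGroup (Fin n) → Bool) := { }
  exact (isClosedEmbedding_code n).polishSpace

instance : BorelSpace Groups := borelSpace_sigma

instance : PolishSpace Groups := {}

lemma measurable_marked {Y : Type*} [MeasurableSpace Y] {n : ℕ} (f : Y → Marked n)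
    (h : ∀ g, Measurable fun y => code (f y) g) : Measurable f := by
  have e : borel (Marked n) =
      MeasurableSpace.comap code (MeasurableSpace.pi (X := fun _ : FreeGroup (Fin n) => Bool)) := by
    rw [BorelSpace.measurable_eq (α := FreeGroup (Fin n) → Bool)]
    exact borel_comap
  change @Measurable _ _ _ (borel (Marked n)) f
  rw [e]
  exact measurable_comap_iff.2 (measurable_pi_iff.2 h)

/-! ### The set of bi-orderable groups is closed -/

/-- Pairs of a normal subgroup and the preimage of a positive cone. -/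
def Cones (n : ℕ) : Set ((FreeGroup (Fin n) → Bool) × (FreeGroup (Fin n) → Bool)) :=
  {z | (∀ g h, z.2 g = true → z.2 h = true → z.2 (g * h) = true) ∧
    (∀ g h, z.2 g = true → z.2 (h * g * h⁻¹) = true) ∧
    (∀ g, z.1 g = true → z.2 g = false) ∧
    ∀ g, z.1 g = true ∨ z.2 g = true ∨ z.2 g⁻¹ = true}

lemma isClosed_cones (n : ℕ) : IsClosed (Cones n) := by
  have h1 : ∀ g, Continuous fun z : (FreeGroup (Fin n) → Bool) × (FreeGroup (Fin n) → Bool) =>
      z.1 g := fun g => (continuous_apply g).comp continuous_fst
  have h2 : ∀ g, Continuous fun z : (FreeGroup (Fin n) → Bool) × (FreeGroup (Fin n) → Bool) =>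
      z.2 g := fun g => (continuous_apply g).comp continuous_snd
  have hA : IsClosed {z : (FreeGroup (Fin n) → Bool) × (FreeGroup (Fin n) → Bool) |
      ∀ g h, z.2 g = true → z.2 h = true → z.2 (g * h) = true} := by
    simp only [ofPred_forall]
    refine isClosed_iInter fun g => isClosed_iInter fun h => ?_
    exact isClosed_imp (isOpen_coord h2 _ _) (isClosed_imp (isOpen_coord h2 _ _)
      (isClosed_coord h2 _ _))
  have hB : IsClosed {z : (FreeGroup (Fin n) → Bool) × (FreeGroup (Fin n) → Bool) |
      ∀ g h, z.2 g = true → z.2 (h * g * h⁻¹) = true} := by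
    simp only [ofPred_forall]
    refine isClosed_iInter fun g => isClosed_iInter fun h => ?_
    exact isClosed_imp (isOpen_coord h2 _ _) (isClosed_coord h2 _ _)
  have hC : IsClosed {z : (FreeGroup (Fin n) → Bool) × (FreeGroup (Fin n) → Bool) |
      ∀ g, z.1 g = true → z.2 g = false} := by
    simp only [ofPred_forall]
    refine isClosed_iInter fun g => ?_
    exact isClosed_imp (isOpen_coord h1 _ _) (isClosed_coord h2 _ _)
  have hD : IsClosed {z : (FreeGroup (Fin n) → Bool) × (FreeGroup (Fin n) → Bool) |
      ∀ g, z.1 g = true ∨ z.2 g = true ∨ z.2 g⁻¹ = true} := by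
    simp only [ofPred_forall]
    refine isClosed_iInter fun g => ?_
    exact (isClosed_coord h1 g true).union
      ((isClosed_coord h2 g true).union (isClosed_coord h2 g⁻¹ true))
  exact hA.inter (hB.inter (hC.inter hD))

lemma lt_of_lt {G : Type} [Group G] (o : LinearOrder G)
    (ho : ∀ a b g h : G, o.lt a b → o.lt (g * a * h) (g * b * h)) {a b : G} (h : o.lt a b)
    (g : G) : o.lt (g * a) (g * b) := by
  have := ho a b g 1 h
  rwa [mul_one, mul_one] at this

open Classical in
lemma exists_cone {n : ℕ} (N : Marked n) [N.1.Normal]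
    (h : BiOrderable (FreeGroup (Fin n) ⧸ N.1)) :
    ∃ P : FreeGroup (Fin n) → Bool, (code N, P) ∈ Cones n := by
  obtain ⟨o, ho⟩ := h
  let m : FreeGroup (Fin n) →* FreeGroup (Fin n) ⧸ N.1 := QuotientGroup.mk' N.1
  refine ⟨fun g => decide (o.lt 1 (m g)), ?_, ?_, ?_, ?_⟩
  · intro g h hg hh
    simp only [decide_eq_true_eq] at hg hh ⊢
    rw [map_mul]
    have h1 := lt_of_lt o ho hh (m g)
    rw [mul_one] at h1
    exact @lt_trans _ o.toPreorder _ _ _ hg h1
  · intro g h hg
    simp only [decide_eq_true_eq] at hg ⊢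
    rw [map_mul, map_mul, map_inv]
    have h1 := ho _ _ (m h) (m h)⁻¹ hg
    rwa [mul_one, mul_inv_cancel] at h1
  · intro g hg
    have h1 : m g = 1 := (QuotientGroup.eq_one_iff g).2 ((code_eq_true N g).1 hg)
    simp only [decide_eq_false_iff_not]
    rw [h1]
    exact @lt_irrefl _ o.toPreorder _
  · intro g
    simp only [decide_eq_true_eq, code_eq_true]
    by_cases hg : g ∈ N.1
    · exact Or.inl hg
    · right
      have h1 : m g ≠ 1 := fun e => hg ((QuotientGroup.eq_one_iff g).1 e)
      rcases @lt_or_gt_of_ne _ o _ _ h1 with h2 | h2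
      · right
        rw [map_inv]
        have h3 := lt_of_lt o ho h2 (m g)⁻¹
        rwa [inv_mul_cancel, mul_one] at h3
      · exact Or.inl h2

open Classical in
lemma biOrderable_of_cone {n : ℕ} (N : Marked n) [N.1.Normal] (P : FreeGroup (Fin n) → Bool)
    (hP : (code N, P) ∈ Cones n) : BiOrderable (FreeGroup (Fin n) ⧸ N.1) := by
  obtain ⟨h1, h2, h3, h4⟩ := hP
  change ∀ g h, P g = true → P h = true → P (g * h) = true at h1
  change ∀ g h, P g = true → P (h * g * h⁻¹) = true at h2
  have h3' : ∀ g ∈ N.1, P g = false := fun g hg => h3 g ((code_eq_true N g).2 hg)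
  have h4' : ∀ g, g ∉ N.1 → P g = true ∨ P g⁻¹ = true := by
    intro g hg
    rcases h4 g with h | h
    · exact absurd ((code_eq_true N g).1 h) hg
    · exact h
  have h5 : ∀ g k, P g = true → k ∈ N.1 → P (g * k) = true := by
    intro g k hg hk
    have hn : g * k ∉ N.1 := by
      intro h
      have : g ∈ N.1 := (Subgroup.mul_mem_cancel_right _ hk).1 h
      rw [h3' g this] at hg
      exact absurd hg (by decide)
    rcases h4' _ hn with h | h
    · exact h
    · exfalso
      have h6 := h1 _ _ h hg
      have h7 : (g * k)⁻¹ * g = k⁻¹ := by group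
      rw [h7, h3' _ (N.1.inv_mem hk)] at h6
      exact absurd h6 (by decide)
  let m : FreeGroup (Fin n) →* FreeGroup (Fin n) ⧸ N.1 := QuotientGroup.mk' N.1
  have hm : Function.Surjective m := QuotientGroup.mk'_surjective N.1
  let Q : FreeGroup (Fin n) ⧸ N.1 → Prop := fun q => ∃ g, m g = q ∧ P g = true
  have hQ : ∀ g, Q (m g) ↔ P g = true := by
    intro g
    constructor
    · rintro ⟨k, hk, hk'⟩
      have h6 : k⁻¹ * g ∈ N.1 := QuotientGroup.eq.1 hk
      have := h5 k _ hk' h6
      rwa [mul_inv_cancel_left] at this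
    · intro h
      exact ⟨g, rfl, h⟩
  have q1 : ∀ a b, Q a → Q b → Q (a * b) := by
    intro a b
    obtain ⟨g, rfl⟩ := hm a
    obtain ⟨k, rfl⟩ := hm b
    rw [← map_mul, hQ, hQ, hQ]
    exact h1 g k
  have q2 : ∀ a c, Q a → Q (c * a * c⁻¹) := by
    intro a c
    obtain ⟨g, rfl⟩ := hm a
    obtain ⟨k, rfl⟩ := hm c
    rw [← map_inv, ← map_mul, ← map_mul, hQ, hQ]
    exact h2 g k
  have q3 : ¬ Q 1 := by
    rw [← map_one m, hQ, h3' 1 N.1.one_mem]
    decide
  have q4 : ∀ a, a ≠ 1 → Q a ∨ Q a⁻¹ := by
    intro a
    obtain ⟨g, rfl⟩ := hm a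
    intro ha
    rw [← map_inv, hQ, hQ]
    refine h4' g fun h => ha ?_
    exact (QuotientGroup.eq_one_iff g).2 h
  let r : FreeGroup (Fin n) ⧸ N.1 → FreeGroup (Fin n) ⧸ N.1 → Prop := fun a b => Q (a⁻¹ * b)
  have hr : IsStrictTotalOrder _ r :=
    { trichotomous := by
        intro a b hab hba
        by_contra hne
        have : a⁻¹ * b ≠ 1 := fun h => hne (inv_mul_eq_one.1 h)
        rcases q4 _ this with h | h
        · exact hab h
        · rw [mul_inv_rev, inv_inv] at h
          exact hba h
      irrefl := by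
        intro a h
        change Q (a⁻¹ * a) at h
        rw [inv_mul_cancel] at h
        exact q3 h
      trans := by
        intro a b c hab hbc
        have := q1 _ _ hab hbc
        change Q (a⁻¹ * c)
        rwa [mul_assoc, mul_inv_cancel_left] at this }
  refine ⟨linearOrderOfSTO r, ?_⟩
  intro a b g h hab
  have hab' : Q (a⁻¹ * b) := hab
  change Q ((g * a * h)⁻¹ * (g * b * h))
  have e : (g * a * h)⁻¹ * (g * b * h) = h⁻¹ * (a⁻¹ * b) * h⁻¹⁻¹ := by group
  rw [e]
  exact q2 _ _ hab'

lemma isClosed_biOrderable (n : ℕ) :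
    IsClosed {N : Marked n | ∃ P : FreeGroup (Fin n) → Bool, (code N, P) ∈ Cones n} := by
  have h1 : IsClosed (Prod.fst '' Cones n) := isClosedMap_fst_of_compactSpace _ (isClosed_cones n)
  have h2 : {N : Marked n | ∃ P : FreeGroup (Fin n) → Bool, (code N, P) ∈ Cones n} =
      code ⁻¹' (Prod.fst '' Cones n) := by
    ext N
    simp
  rw [h2]
  exact h1.preimage (continuous_code n)

lemma isClosed_BO : IsClosed BO := by
  rw [isClosed_sigma_iff]
  intro n
  have : Sigma.mk n ⁻¹' BO =
      {N : Marked (n + 1) | ∃ P : FreeGroup (Fin (n + 1)) → Bool, (code N, P) ∈ Cones (n + 1)} := by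
    ext N
    have := N.2
    constructor
    · intro h
      exact exists_cone N h
    · rintro ⟨P, hP⟩
      exact biOrderable_of_cone N P hP
  rw [this]
  exact isClosed_biOrderable (n + 1)

/-! ### Isomorphism is a countable Borel equivalence relation -/

/-- The homomorphism of the free group of countable rank onto `F_n` which kills the generators
of index `≥ n`. -/
noncomputable def prj (n : ℕ) : FreeGroup ℕ →* FreeGroup (Fin n) :=
  FreeGroup.lift fun i => if h : i < n then FreeGroup.of ⟨i, h⟩ else 1

lemma prj_of_lt {n i : ℕ} (h : i < n) : prj n (FreeGroup.of i) = FreeGroup.of ⟨i, h⟩ := by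
  simp [prj, h]

lemma prj_of_ge {n i : ℕ} (h : n ≤ i) : prj n (FreeGroup.of i) = 1 := by
  simp [prj, not_lt.2 h]

lemma prj_surjective (n : ℕ) : Function.Surjective (prj n) := by
  rw [← MonoidHom.range_eq_top, eq_top_iff, ← FreeGroup.closure_range_of, Subgroup.closure_le]
  rintro _ ⟨i, rfl⟩
  exact ⟨FreeGroup.of i.1, prj_of_lt i.2⟩

/-- The map of the free group of countable rank onto the coded group. -/
noncomputable def mk (p : Groups) : FreeGroup ℕ →* grp p :=
  (QuotientGroup.mk' p.2.1).comp (prj (p.1 + 1))

lemma mk_surjective (p : Groups) : Function.Surjective (mk p) :=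
  (QuotientGroup.mk'_surjective _).comp (prj_surjective _)

lemma mk_of_ge (p : Groups) {i : ℕ} (h : p.1 + 1 ≤ i) : mk p (FreeGroup.of i) = 1 := by
  change QuotientGroup.mk' p.2.1 (prj (p.1 + 1) (FreeGroup.of i)) = 1
  rw [prj_of_ge h, map_one]

lemma mk_eq_one_iff (p : Groups) (g : FreeGroup ℕ) :
    mk p g = 1 ↔ code p.2 (prj (p.1 + 1) g) = true := by
  rw [code_eq_true]
  exact QuotientGroup.eq_one_iff _

lemma measurableSet_mk (g : FreeGroup ℕ) : MeasurableSet {p : Groups | mk p g = 1} := by
  have : {p : Groups | mk p g = 1} = {p : Groups | code p.2 (prj (p.1 + 1) g) = true} := by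
    ext p
    exact mk_eq_one_iff p g
  rw [this]
  refine MeasurableSpace.measurableSet_iInf.2 fun n => ?_
  have h1 : Measurable fun N : Marked (n + 1) => code N (prj (n + 1) g) :=
    (continuous_code_apply _).measurable
  exact h1 (measurableSet_singleton true)

/-- The endomorphism given by a list of words. -/
noncomputable def sub (w : List (FreeGroup ℕ)) : FreeGroup ℕ →* FreeGroup ℕ :=
  FreeGroup.lift fun i => w.getD i 1

lemma iso_iff (p q : Groups) : Nonempty (grp p ≃* grp q) ↔ ∃ w : List (FreeGroup ℕ),
    (∀ g, mk p g = 1 ↔ mk q (sub w g) = 1) ∧ ∀ h, ∃ g, mk q (h⁻¹ * sub w g) = 1 := by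
  constructor
  · rintro ⟨Φ⟩
    choose s hs using mk_surjective q
    let w : List (FreeGroup ℕ) :=
      (List.range (p.1 + 1)).map fun i => s (Φ (mk p (FreeGroup.of i)))
    have hw : ∀ g, mk q (sub w g) = Φ (mk p g) := by
      have : (mk q).comp (sub w) = Φ.toMonoidHom.comp (mk p) := by
        apply FreeGroup.ext_hom
        intro i
        change mk q (sub w (FreeGroup.of i)) = Φ (mk p (FreeGroup.of i))
        rw [sub, FreeGroup.lift_apply_of]
        rcases lt_or_ge i (p.1 + 1) with h | h
        · have : w.getD i 1 = s (Φ (mk p (FreeGroup.of i))) := by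
            simp [w, List.getD, h]
          rw [this, hs]
        · have : w.getD i 1 = 1 := List.getD_eq_default _ _ (by
            rw [List.length_map, List.length_range]
            exact h)
          rw [this, mk_of_ge p h, map_one, map_one]
      intro g
      exact DFunLike.congr_fun this g
    refine ⟨w, ?_, ?_⟩
    · intro g
      rw [hw]
      exact (map_eq_one_iff Φ Φ.injective).symm
    · intro h
      obtain ⟨g, hg⟩ := mk_surjective p (Φ.symm (mk q h))
      refine ⟨g, ?_⟩
      rw [map_mul, hw, hg, MulEquiv.apply_symm_apply, map_inv, inv_mul_cancel]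
  · rintro ⟨w, h1, h2⟩
    have hs : Function.Surjective ((mk q).comp (sub w)) := by
      intro y
      obtain ⟨h, rfl⟩ := mk_surjective q y
      obtain ⟨g, hg⟩ := h2 h
      refine ⟨g, ?_⟩
      rw [map_mul, map_inv, inv_mul_eq_one] at hg
      exact hg.symm
    have hk : (mk p).ker = ((mk q).comp (sub w)).ker := by
      ext g
      rw [MonoidHom.mem_ker, MonoidHom.mem_ker]
      exact h1 g
    exact ⟨((QuotientGroup.quotientKerEquivOfSurjective _ (mk_surjective p)).symm.trans
      (QuotientGroup.quotientMulEquivOfEq hk)).trans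
      (QuotientGroup.quotientKerEquivOfSurjective _ hs)⟩

lemma measurableSet_iso :
    MeasurableSet {z : Groups × Groups | Nonempty (grp z.1 ≃* grp z.2)} := by
  have : {z : Groups × Groups | Nonempty (grp z.1 ≃* grp z.2)} =
      ⋃ w : List (FreeGroup ℕ), (⋂ g, {z : Groups × Groups | mk z.1 g = 1 ↔
        mk z.2 (sub w g) = 1}) ∩ ⋂ h, ⋃ g, {z : Groups × Groups | mk z.2 (h⁻¹ * sub w g) = 1} := by
    ext z
    simp only [mem_iUnion, mem_inter_iff, mem_iInter]
    exact iso_iff z.1 z.2
  rw [this]
  have m1 : ∀ g, MeasurableSet {z : Groups × Groups | mk z.1 g = 1} := fun g =>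
    measurable_fst (measurableSet_mk g)
  have m2 : ∀ g, MeasurableSet {z : Groups × Groups | mk z.2 g = 1} := fun g =>
    measurable_snd (measurableSet_mk g)
  refine MeasurableSet.iUnion fun w => MeasurableSet.inter ?_ ?_
  · refine MeasurableSet.iInter fun g => ?_
    exact (m1 g).iff (m2 _)
  · exact MeasurableSet.iInter fun h => MeasurableSet.iUnion fun g => m2 _

lemma countable_iso (p : Groups) : {q : Groups | Nonempty (grp p ≃* grp q)}.Countable := by
  have : Countable (grp p) := (QuotientGroup.mk'_surjective p.2.1).countable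
  let f : (Σ m : ℕ, (Fin (m + 1) → grp p)) → Groups := fun t =>
    ⟨t.1, ⟨(FreeGroup.lift t.2 : FreeGroup (Fin (t.1 + 1)) →* grp p).ker, inferInstance⟩⟩
  refine (countable_range f).mono ?_
  rintro ⟨m, N⟩ ⟨Φ⟩
  have hN := N.2
  refine ⟨⟨m, fun i => Φ.symm (QuotientGroup.mk' N.1 (FreeGroup.of i))⟩, ?_⟩
  have : (FreeGroup.lift (fun i => Φ.symm (QuotientGroup.mk' N.1 (FreeGroup.of i))) :
      FreeGroup (Fin (m + 1)) →* grp p) = Φ.symm.toMonoidHom.comp (QuotientGroup.mk' N.1) := by
    apply FreeGroup.ext_hom
    intro i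
    rw [FreeGroup.lift_apply_of]
    rfl
  have h2 : (FreeGroup.lift (fun i => Φ.symm (QuotientGroup.mk' N.1 (FreeGroup.of i))) :
      FreeGroup (Fin (m + 1)) →* grp p).ker = N.1 := by
    rw [this]
    ext g
    rw [MonoidHom.mem_ker]
    change Φ.symm (QuotientGroup.mk' N.1 g) = 1 ↔ _
    rw [EmbeddingLike.map_eq_one_iff]
    exact QuotientGroup.eq_one_iff g
  change (⟨m, _⟩ : Groups) = ⟨m, N⟩
  congr 1
  exact Subtype.ext h2

theorem isCBER_iso : IsCBER Iso where
  equivalence := ⟨fun _ => ⟨MulEquiv.refl _⟩, fun ⟨e⟩ => ⟨e.symm⟩, fun ⟨e⟩ ⟨f⟩ => ⟨e.trans f⟩⟩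
  borel := (measurable_subtype_coe.prodMap measurable_subtype_coe) measurableSet_iso
  countable := fun p => (countable_iso p.1).preimage Subtype.val_injective

theorem standardBorel_BO : StandardBorelSpace BO := isClosed_BO.measurableSet.standardBorel

/-! ### The reduction -/

section reduction

open Pool.Agent.helper55.PingPong Pool.Agent.helper55.HallGroup Pool.Agent.helper55.HallGroup.GG
  Pool.Agent.helper55.BiOrd

/-- The marking by four generators of the group `G_ρ`. -/
noncomputable def word4 (ρ : K2 → ℤ) : FreeGroup (Fin 4) →* GG ρ :=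
  (word ρ tt).comp (FreeGroup.map Fin.val)

lemma word4_surjective (ρ : K2 → ℤ) : Function.Surjective (word4 ρ) := by
  rw [← MonoidHom.range_eq_top, eq_top_iff]
  have h : (word ρ tt).range = ⊤ := MonoidHom.range_eq_top.2 (word_surjective ρ tt closure_tt)
  rw [← h, MonoidHom.range_eq_map, ← FreeGroup.closure_range_of, MonoidHom.map_closure,
    Subgroup.closure_le]
  rintro _ ⟨_, ⟨i, rfl⟩, rfl⟩
  rcases lt_or_ge i 4 with hi | hi
  · refine ⟨FreeGroup.of ⟨i, hi⟩, ?_⟩
    simp [word4]
  · rw [word_of, gen_eq_one ρ i hi]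
    exact one_mem _

/-- The marked group. -/
noncomputable def point (ρ : K2 → ℤ) : Marked (3 + 1) := ⟨(word4 ρ).ker, inferInstance⟩

/-- The marked group is `G_ρ`. -/
noncomputable def pointEquiv (ρ : K2 → ℤ) : grp ⟨3, point ρ⟩ ≃* GG ρ :=
  QuotientGroup.quotientKerEquivOfSurjective _ (word4_surjective ρ)

lemma biOrderable_of_equiv {G H : Type} [Group G] [Group H] (e : G ≃* H)
    (h : BiOrderable H) : BiOrderable G := by
  obtain ⟨o, ho⟩ := h
  refine ⟨@LinearOrder.lift' _ _ o e e.injective, ?_⟩
  intro a b g k hab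
  change o.lt (e (g * a * k)) (e (g * b * k))
  rw [map_mul, map_mul, map_mul, map_mul]
  exact ho _ _ _ _ hab

lemma biOrderable_GG (ρ : K2 → ℤ) : BiOrderable (GG ρ) := by
  refine ⟨ord, ?_⟩
  intro a b g h hab
  have h1 : (ord (ρ := ρ)).le a b := @le_of_lt _ ord.toPreorder _ _ hab
  have h2 : a ≠ b := @ne_of_lt _ ord.toPreorder _ _ hab
  have h3 := (ord_mul_le h _ _ (ord_mul_le g _ _ h1).1).2
  refine @lt_of_le_of_ne _ ord.toPartialOrder _ _ h3 ?_
  intro e
  exact h2 (mul_left_cancel (mul_right_cancel e))

lemma derived_GG (ρ : K2 → ℤ) : derivedSeries (GG ρ) 2 ≤ Subgroup.center (GG ρ) := by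
  have h1 : ∀ g ∈ derivedSeries (GG ρ) 1, g.l = 0 := by
    let H : Subgroup (GG ρ) :=
      { carrier := {g | g.l = 0}
        mul_mem' := fun {a b} ha hb => by
          change (a * b).l = 0
          rw [mul_l, show a.l = 0 from ha, show b.l = 0 from hb, add_zero]
        one_mem' := rfl
        inv_mem' := fun {a} ha => by
          change (a⁻¹).l = 0
          rw [inv_l, show a.l = 0 from ha, neg_zero] }
    have : derivedSeries (GG ρ) 1 ≤ H := by
      rw [derivedSeries_succ, Subgroup.commutator_le]
      intro g _ h _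
      exact comm_l g h
    intro g hg
    exact this hg
  rw [derivedSeries_succ, Subgroup.commutator_le]
  intro g hg h hh
  rw [GG.mem_center_iff]
  refine ⟨?_, comm_l g h⟩
  have := comm_v g h
  rw [h1 g hg, h1 h hh, X_zero, sub_self, zero_mul, zero_mul, sub_self] at this
  exact this

lemma derived_of_equiv {G H : Type} [Group G] [Group H] (e : G ≃* H)
    (h : derivedSeries H 2 ≤ Subgroup.center H) : derivedSeries G 2 ≤ Subgroup.center G := by
  intro x hx
  have h1 : e x ∈ derivedSeries H 2 :=
    map_derivedSeries_le_derivedSeries e.toMonoidHom 2 ⟨x, hx, rfl⟩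
  have h2 := Subgroup.mem_center_iff.1 (h h1)
  rw [Subgroup.mem_center_iff]
  intro g
  apply e.injective
  rw [map_mul, map_mul]
  exact h2 (e g)

/-- The centre of `G_ρ` is infinite cyclic. -/
lemma center_GG (ρ : K2 → ℤ) : Nonempty (Multiplicative ℤ ≃* Subgroup.center (GG ρ)) := by
  let f : Multiplicative ℤ →* GG ρ :=
    { toFun := fun n => zeta n.toAdd
      map_one' := zeta_zero
      map_mul' := fun a b => (zeta_mul _ _).symm }
  have hf : Function.Injective f := by
    intro a b h
    have : (f a).z = (f b).z := by rw [h]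
    exact this
  have hr : f.range = Subgroup.center (GG ρ) := by
    ext g
    rw [GG.mem_center_iff]
    constructor
    · rintro ⟨n, rfl⟩
      exact ⟨rfl, rfl⟩
    · rintro ⟨h1, h2⟩
      exact ⟨Multiplicative.ofAdd g.z, GG.ext rfl h1.symm h2.symm⟩
  exact ⟨(MonoidHom.ofInjective hf).trans (MulEquiv.subgroupCongr hr)⟩

lemma center_of_equiv {G H : Type} [Group G] [Group H] (e : G ≃* H)
    (h : Nonempty (Multiplicative ℤ ≃* Subgroup.center H)) :
    Nonempty (Multiplicative ℤ ≃* Subgroup.center G) := by
  obtain ⟨f⟩ := h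
  exact ⟨f.trans (Subgroup.centerCongr e.symm)⟩

lemma measurable_point {Y : Type} [MeasurableSpace Y] (r : Y → K2 → ℤ)
    (hr : ∀ m, Measurable fun x => r x m) : Measurable fun y => point (r y) := by
  refine measurable_marked _ fun g => ?_
  have : (fun y => code (point (r y)) g) =
      fun y => helper55.BiOrd.code (r y) (FreeGroup.map Fin.val g) := by
    funext y
    rw [Bool.eq_iff_iff, code_eq_true]
    simp only [helper55.BiOrd.code, decide_eq_true_eq]
    exact MonoidHom.mem_ker
  rw [this]
  exact (measurable_pi_iff.1 (measurable_code r hr)) _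

end reduction

/-- Isomorphism of finitely generated bi-orderable groups is a universal countable Borel
equivalence relation; four generators and centre-by-metabelian groups with infinite cyclic
centre suffice. -/
theorem result : StandardBorelSpace BO ∧ IsCBER Iso ∧
    ∀ (Y : Type*) [MeasurableSpace Y] [StandardBorelSpace Y] (F : Y → Y → Prop), IsCBER F →
      ∃ f : Y → BO, IsReduction F Iso f ∧ ∀ y, Special (f y).1 := by
  refine ⟨standardBorel_BO, isCBER_iso, ?_⟩
  intro Y _ _ F hF
  -- a copy of `Y` in the real line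
  obtain ⟨ι, hι⟩ := exists_measurableEmbedding_real Y
  let Z : Type := range ι
  have hZ : StandardBorelSpace Z := hι.measurableSet_range.standardBorel
  let e : Y ≃ᵐ Z := hι.equivRange
  obtain ⟨r, hr, h⟩ := Pool.Agent.helper55.BiOrd.main Z (fun a b => F (e.symm a) (e.symm b))
    ⟨fun a => hF.equivalence.refl _, fun h => hF.equivalence.symm h,
      fun h k => hF.equivalence.trans h k⟩
    ((e.symm.measurable.prodMap e.symm.measurable) hF.borel)
    (fun x => (hF.countable (e.symm x)).preimage e.symm.injective)
  let f : Y → BO := fun y => ⟨⟨3, point (r (e y))⟩,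
    biOrderable_of_equiv (pointEquiv (r (e y))) (biOrderable_GG (r (e y)))⟩
  refine ⟨f, ⟨?_, ?_⟩, ?_⟩
  · apply Measurable.subtype_mk
    have h1 : Measurable fun z : Z => point (r z) := measurable_point r hr
    have h2 : Measurable fun N : Marked (3 + 1) => (Sigma.mk 3 N : Groups) := by
      have : Continuous fun N : Marked (3 + 1) => (Sigma.mk 3 N : Groups) :=
        continuous_sigmaMk (σ := fun n : ℕ => Marked (n + 1))
      exact this.measurable
    exact h2.comp (h1.comp e.measurable)
  · intro y y'
    have h1 := h (e y) (e y')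
    rw [e.symm_apply_apply, e.symm_apply_apply] at h1
    rw [h1]
    constructor
    · rintro ⟨Φ⟩
      exact ⟨((pointEquiv (r (e y))).trans Φ).trans (pointEquiv (r (e y'))).symm⟩
    · rintro ⟨Φ⟩
      exact ⟨((pointEquiv (r (e y))).symm.trans Φ).trans (pointEquiv (r (e y')))⟩
  · intro y
    exact ⟨rfl, derived_of_equiv (pointEquiv (r (e y))) (derived_GG _),
      center_of_equiv (pointEquiv (r (e y))) (center_GG _)⟩

end Pool.Agent.Results.MP_07d4a7_lc.FourGenerators
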